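import Pool.Agent.W269.BL.Stm

set_option autoImplicit false

open Polynomial

namespace Pool.Agent.W30.BL

open Pool.Agent.W269.BL

universe u

section
variable {K : Type u} [Field K]

lemma cop_of_ne {P Q : K[X]} (hP : P.Monic) (hPi : Irreducible P) (hQ : Q.Monic)
    (hQi : Irreducible Q) (h : P ≠ Q) : IsCoprime P Q := by
  rcases (EuclideanDomain.dvd_or_coprime P Q hPi).symm with h1 | h1
  · exact h1
  · exact absurd (eq_of_monic_of_associated hP hQ (hPi.associated_of_dvd hQi h1)) h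

lemma crt (T : Finset K[X]) (hT : ∀ Q ∈ T, Q.Monic ∧ Irreducible Q) (g : K[X] → K[X]) :
    ∃ r : K[X], ∀ Q ∈ T, Q ∣ r - g Q := by
  classical
  have key := Ideal.exists_forall_sub_mem_ideal (ι := T)
    (I := fun Q => Ideal.span {(Q : K[X])}) (by
    intro Q Q' hne
    show IsCoprime (Ideal.span {(Q : K[X])}) (Ideal.span {(Q' : K[X])})
    rw [Ideal.isCoprime_span_singleton_iff]
    exact cop_of_ne (hT _ Q.2).1 (hT _ Q.2).2 (hT _ Q'.2).1 (hT _ Q'.2).2
      (fun h => hne (Subtype.ext h))) (fun Q => g Q)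
  obtain ⟨r, hr⟩ := key
  exact ⟨r, fun Q hQ => Ideal.mem_span_singleton.1 (hr ⟨Q, hQ⟩)⟩

lemma rs_one_left (M : K[X]) : rs (1 : K[X]) M = 1 := by
  rw [rs_comm]
  have := rs_C (f := M) (1 : K)
  rw [C_1] at this
  rw [this]
  simp

lemma rs_congr (M M1 : K[X]) : ∀ (m : ℕ) (c : K[X]), c.natDegree = m → c.Monic →
    (∀ Q : K[X], Q.Monic → Irreducible Q → Q ∣ c → Q ∣ M - M1) → rs c M = rs c M1 := by
  intro m
  induction m using Nat.strong_induction_on with
  | _ m ih =>
    intro c hcm hc h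
    by_cases h0 : c.natDegree = 0
    · have : c = 1 := eq_one_of_monic_natDegree_zero hc h0
      rw [this, rs_one_left, rs_one_left]
    · have hnu : ¬ IsUnit c := by
        intro hu
        exact h0 (natDegree_eq_zero_of_isUnit hu)
      obtain ⟨g, hg, hgi, c', rfl⟩ := exists_monic_irreducible_factor c hnu
      have hc' : c'.Monic := hg.of_mul_monic_left hc
      have hdeg : (g * c').natDegree = g.natDegree + c'.natDegree := hg.natDegree_mul hc'
      have hgp : 0 < g.natDegree := hgi.natDegree_pos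
      rw [rs_mul_left hg hc', rs_mul_left hg hc']
      congr 1
      · obtain ⟨k, hk⟩ := h g hg hgi (dvd_mul_right _ _)
        have : M = M1 + g * k := by rw [← hk]; ring
        rw [this, rs_add_mul hg]
      · exact ih c'.natDegree (by omega) c' rfl hc'
          (fun Q hQ hQi hd => h Q hQ hQi (hd.mul_left _))

lemma exists_avoid [Fintype K] {n : ℕ} (Q : K[X]) (hQ : Irreducible Q)
    (hcard : n < Fintype.card K ^ Q.natDegree) (A B : Fin n → K[X]) :
    ∃ d : K[X], ∀ j, ¬ Q ∣ A j → ¬ Q ∣ (A j) ^ 2 * d - B j := by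
  have := Fact.mk hQ
  let pb := AdjoinRoot.powerBasis hQ.ne_zero
  have : Module.Finite K (AdjoinRoot Q) := pb.finite
  have hc : Nat.card (AdjoinRoot Q) = Fintype.card K ^ Q.natDegree := by
    rw [Module.natCard_eq_pow_finrank (K := K), pb.finrank, AdjoinRoot.powerBasis_dim,
      Nat.card_eq_fintype_card]
  let e : Fin n → AdjoinRoot Q := fun j => AdjoinRoot.mk Q (B j) / (AdjoinRoot.mk Q (A j)) ^ 2
  have hns : ¬ Function.Surjective e := by
    intro hs
    have := Nat.card_le_card_of_surjective e hs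
    rw [hc, Nat.card_eq_fintype_card, Fintype.card_fin] at this
    omega
  obtain ⟨x, hx⟩ := not_forall.1 hns
  obtain ⟨d, rfl⟩ := AdjoinRoot.mk_surjective x
  refine ⟨d, fun j hj hd => hx ⟨j, ?_⟩⟩
  have h1 : AdjoinRoot.mk Q (A j) ≠ 0 := by
    rw [Ne, AdjoinRoot.mk_eq_zero]; exact hj
  have h2 : AdjoinRoot.mk Q ((A j) ^ 2 * d - B j) = 0 := AdjoinRoot.mk_eq_zero.2 hd
  rw [map_sub, map_mul, map_pow, sub_eq_zero] at h2
  show AdjoinRoot.mk Q (B j) / (AdjoinRoot.mk Q (A j)) ^ 2 = _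
  rw [← h2]
  field_simp

end

theorem main : StmED1.{u} → StmED.{u} := by
  intro hED1 K _ _ _ h2 n A b y P τ hA hb hy hyd hsmall hP hτ
  classical
  set l : Fin n → K[X] := fun j => A j * y + C (b j) with hl
  have hlm : ∀ j, (l j).Monic := by
    intro j
    have h1 : (A j * y).Monic := (hA j).mul hy
    refine h1.add_of_left ?_
    refine lt_of_le_of_lt degree_C_le ?_
    rw [← natDegree_pos_iff_degree_pos, (hA j).natDegree_mul hy]
    omega
  have hcop : ∀ j, ∀ Q : K[X], Irreducible Q → Q ∣ l j → ¬ Q ∣ A j := by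
    intro j Q hQ h1 h3
    have h4 : Q ∣ C (b j) := by
      have := dvd_sub h1 (h3.mul_right y)
      simpa [hl] using this
    exact hQ.not_isUnit (isUnit_of_dvd_unit h4 (isUnit_C.2 (isUnit_iff_ne_zero.2 (hb j))))
  set L : K[X] := ∏ j, l j with hLdef
  have hL0 : L ≠ 0 := Finset.prod_ne_zero_iff.2 fun j _ => (hlm j).ne_zero
  have hlL : ∀ j, l j ∣ L := fun j => Finset.dvd_prod_of_mem l (Finset.mem_univ j)
  let T : Finset K[X] := (UniqueFactorizationMonoid.normalizedFactors L).toFinset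
  have hTm : ∀ Q, Q ∈ T ↔ Q.Monic ∧ Irreducible Q ∧ Q ∣ L := by
    intro Q
    rw [Multiset.mem_toFinset, UniqueFactorizationMonoid.mem_normalizedFactors_iff' hL0]
    constructor
    · rintro ⟨h1, h3, h4⟩
      refine ⟨?_, h1, h4⟩
      rw [← h3]
      exact monic_normalize h1.ne_zero
    · rintro ⟨h1, h3, h4⟩
      exact ⟨h3, h1.normalize_eq_self, h4⟩
  have hTmi : ∀ Q ∈ T, Q.Monic ∧ Irreducible Q := fun Q hQ =>
    ⟨((hTm Q).1 hQ).1, ((hTm Q).1 hQ).2.1⟩
  -- injectivity of P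
  have hPinj : ∀ i j, P i = P j → i = j := by
    intro i j hij
    by_contra hne
    have h1 := (hP j).2.2.2.2 i hne
    have h3 := (hP i).2.2.1
    rw [hij] at h3
    exact h1 h3
  -- stage 1
  have hst1 : ∀ Q : K[X], ∃ d : K[X], Q ∈ T → (∀ i, Q ≠ P i) → ∀ j, Q ∣ l j →
      ¬ Q ∣ (A j) ^ 2 * d - C (b j) * derivative (A j) := by
    intro Q
    by_cases hQ : Q ∈ T
    · obtain ⟨hQm, hQi, hQL⟩ := (hTm Q).1 hQ
      obtain ⟨j0, -, hj0⟩ := (Prime.dvd_finsetProd_iff hQi.prime _).1 hQL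
      have hcard : n < Fintype.card K ^ Q.natDegree := by
        by_contra hle
        exact hcop j0 Q hQi hj0 (hsmall Q hQi (by omega) j0)
      obtain ⟨d, hd⟩ := exists_avoid Q hQi hcard A (fun j => C (b j) * derivative (A j))
      exact ⟨d, fun _ _ j hj => hd j (hcop j Q hQi hj)⟩
    · exact ⟨0, fun h => absurd h hQ⟩
  choose g1 hg1 using hst1
  obtain ⟨D1, hD1⟩ := crt T hTmi g1
  -- cofactors
  have hc : ∀ j, ∃ c : K[X], l j = P j * c ∧ c.Monic ∧
      ∀ Q : K[X], Q.Monic → Irreducible Q → Q ∣ c → Q ∈ T ∧ (∀ i, Q ≠ P i) ∧ Q ∣ l j := by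
    intro j
    obtain ⟨c, hc⟩ := (hP j).2.2.1
    have hc2 : l j = P j * c := hc
    have hcm : c.Monic := (hP j).1.of_mul_monic_left (hc2 ▸ hlm j)
    refine ⟨c, hc2, hcm, ?_⟩
    intro Q hQ hQi hQc
    have hQl : Q ∣ l j := by rw [hc2]; exact hQc.mul_left _
    refine ⟨(hTm Q).2 ⟨hQ, hQi, hQl.trans (hlL j)⟩, ?_, hQl⟩
    intro i hi
    by_cases hij : i = j
    · subst hij
      apply (hP i).2.2.2.1
      show (P i) ^ 2 ∣ l i
      rw [hc2, pow_two]
      exact mul_dvd_mul_left _ (hi ▸ hQc)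
    · exact (hP i).2.2.2.2 j (Ne.symm hij) (hi ▸ hQl)
  choose c hlc hcm hcQ using hc
  -- sign of cofactors at D1
  set M1 : Fin n → K[X] := fun j => (A j) ^ 2 * D1 - C (b j) * derivative (A j) with hM1
  have hσ0 : ∀ j, rs (c j) (M1 j) ≠ 0 := by
    intro j
    rw [rs_ne_zero_iff (hcm j)]
    by_contra hnc
    obtain ⟨Q, hQm, hQi, hQ1, hQ2⟩ : ∃ Q : K[X], Q.Monic ∧ Irreducible Q ∧ Q ∣ c j ∧ Q ∣ M1 j := by
      have hgcd : ¬ IsUnit (EuclideanDomain.gcd (c j) (M1 j)) := by
        intro hu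
        exact hnc (EuclideanDomain.gcd_isUnit_iff.1 hu)
      obtain ⟨g, h1, h3, h4⟩ := exists_monic_irreducible_factor _ hgcd
      exact ⟨g, h1, h3, h4.trans (EuclideanDomain.gcd_dvd_left _ _),
        h4.trans (EuclideanDomain.gcd_dvd_right _ _)⟩
    obtain ⟨hQT, hQP, hQl⟩ := hcQ j Q hQm hQi hQ1
    apply hg1 Q hQT hQP j hQl
    have h5 : Q ∣ (A j) ^ 2 * (D1 - g1 Q) := (hD1 Q hQT).mul_left _
    have h6 : (A j) ^ 2 * g1 Q - C (b j) * derivative (A j) = M1 j - (A j) ^ 2 * (D1 - g1 Q) := by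
      rw [hM1]; ring
    rw [h6]
    exact dvd_sub hQ2 h5
  have hσ : ∀ j, quadraticChar K (rs (c j) (M1 j)) = 1 ∨ quadraticChar K (rs (c j) (M1 j)) = -1 :=
    fun j => quadraticChar_dichotomy (hσ0 j)
  have hz : ∀ j, ∃ z : K[X], quadraticChar K (rs (P j) z) =
      τ j * quadraticChar K (rs (c j) (M1 j)) := by
    intro j
    refine hED1 K h2 (P j) (hP j).1 (hP j).2.1 _ ?_
    rcases hτ j with h | h <;> rcases hσ j with h' | h' <;> simp [h, h']
  choose z hz using hz
  have hd : ∀ j, ∃ d : K[X], P j ∣ (A j) ^ 2 * d - C (b j) * derivative (A j) - z j := by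
    intro j
    have h1 : IsCoprime (P j) ((A j) ^ 2) := by
      apply IsCoprime.pow_right
      rcases (EuclideanDomain.dvd_or_coprime (P j) (A j) (hP j).2.1).symm with h | h
      · exact h
      · exact absurd h (hcop j (P j) (hP j).2.1 (hP j).2.2.1)
    obtain ⟨u, v, huv⟩ := h1
    refine ⟨v * (z j + C (b j) * derivative (A j)), ⟨- u * (z j + C (b j) * derivative (A j)), ?_⟩⟩
    have h3 : v * (A j) ^ 2 = 1 - u * P j := by rw [← huv]; ring
    calc (A j) ^ 2 * (v * (z j + C (b j) * derivative (A j))) - C (b j) * derivative (A j) - z j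
        = (v * (A j) ^ 2) * (z j + C (b j) * derivative (A j))
            - C (b j) * derivative (A j) - z j := by ring
      _ = _ := by rw [h3]; ring
  choose d hd using hd
  obtain ⟨D0, hD0⟩ := crt T hTmi (fun Q => if h : ∃ i, Q = P i then d h.choose else D1)
  refine ⟨∏ Q ∈ T, Q, monic_prod_of_monic _ _ (fun Q hQ => (hTmi Q hQ).1), ?_, D0, ?_⟩
  · apply Finset.squarefree_prod_of_pairwise_isCoprime
    · intro Q hQ Q' hQ' hne
      exact (cop_of_ne (hTmi Q hQ).1 (hTmi Q hQ).2 (hTmi Q' hQ').1 (hTmi Q' hQ').2 hne).isRelPrime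
    · intro Q hQ
      exact (hTmi Q hQ).2.squarefree
  · intro D hD j
    have hQD : ∀ Q ∈ T, Q ∣ D - D0 := fun Q hQ => (Finset.dvd_prod_of_mem _ hQ).trans hD
    have hlj : A j * y + C (b j) = P j * c j := hlc j
    rw [hlj, rs_mul_left (hP j).1 (hcm j), map_mul]
    have hPT : P j ∈ T := (hTm _).2 ⟨(hP j).1, (hP j).2.1, (Dvd.intro _ (hlc j).symm).trans (hlL j)⟩
    -- part at P j
    have e1 : rs (P j) ((A j) ^ 2 * D - C (b j) * derivative (A j)) = rs (P j) (z j) := by
      have h1 : P j ∣ D0 - d j := by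
        have := hD0 (P j) hPT
        have hex : ∃ i, P j = P i := ⟨j, rfl⟩
        rw [dif_pos hex] at this
        have hj : hex.choose = j := (hPinj _ _ hex.choose_spec).symm
        rwa [hj] at this
      have h3 : P j ∣ D - d j := by
        have := dvd_add (hQD _ hPT) h1
        simpa using this
      have h4 : P j ∣ ((A j) ^ 2 * D - C (b j) * derivative (A j)) - z j := by
        have h5 : ((A j) ^ 2 * D - C (b j) * derivative (A j)) - z j =
            (A j) ^ 2 * (D - d j) + ((A j) ^ 2 * d j - C (b j) * derivative (A j) - z j) := by ring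
        rw [h5]
        exact dvd_add (h3.mul_left _) (hd j)
      obtain ⟨k, hk⟩ := h4
      have h6 : (A j) ^ 2 * D - C (b j) * derivative (A j) = z j + P j * k := by
        rw [← hk]; ring
      rw [h6, rs_add_mul (hP j).1]
    have e2 : rs (c j) ((A j) ^ 2 * D - C (b j) * derivative (A j)) = rs (c j) (M1 j) := by
      apply rs_congr _ _ _ (c j) rfl (hcm j)
      intro Q hQm hQi hQc
      obtain ⟨hQT, hQP, hQl⟩ := hcQ j Q hQm hQi hQc
      have h1 : Q ∣ D0 - D1 := by
        have := hD0 Q hQT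
        have hex : ¬ ∃ i, Q = P i := fun ⟨i, hi⟩ => hQP i hi
        rwa [dif_neg hex] at this
      have h3 : Q ∣ D - D1 := by
        have := dvd_add (hQD Q hQT) h1
        simpa using this
      have h4 : ((A j) ^ 2 * D - C (b j) * derivative (A j)) - M1 j = (A j) ^ 2 * (D - D1) := by
        rw [hM1]; ring
      rw [h4]
      exact h3.mul_left _
    rw [e1, e2, hz j]
    rcases hσ j with h | h <;> simp [h]

end Pool.Agent.W30.BL
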